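import Pool.Agent.Q150.CoConSpace

/-!
# MP_a60c23_gt: a co-consonant space whose lower powerspace is not co-consonant
-/

set_option autoImplicit false

open Set Topology TopologicalSpace

namespace Pool.Agent.Results.MP_a60c23_gt.LowerFails

open Pool.Agent.Q150.CoCon Pool.Agent.Q150.CoCon.Sp

section

variable {X : Type} [TopologicalSpace X]

/-- the closure of a set as a point of the lower powerspace -/
def cl (F : Set X) : PH X := ⟨closure F, isClosed_closure⟩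

theorem cl_mem_diam {F O : Set X} (hO : IsOpen O) : cl F ∈ diam O ↔ (F ∩ O).Nonempty :=
  closure_inter_open_nonempty_iff hO

theorem isOpen_diam {O : Set X} (hO : IsOpen O) : IsOpen (diam O) := isOpen_generateFrom_of_mem ⟨O, hO, rfl⟩

end

/-- the first map -/
def φ (x : Sp) : PH Sp := cl {x, a}

/-- the second map -/
def ψ (x : Sp) : PH Sp := cl {x}

theorem φ_continuous : Continuous φ := by
  rw [continuous_generateFrom_iff]
  rintro _ ⟨O, hO, rfl⟩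
  by_cases ha : a ∈ O
  · have : φ ⁻¹' diam O = univ := eq_univ_of_forall fun x => (cl_mem_diam hO).mpr ⟨a, Or.inr rfl, ha⟩
    rw [this]
    exact isOpen_univ
  · have : φ ⁻¹' diam O = O := by
      ext x
      constructor
      · intro hx
        obtain ⟨p, hp, hpO⟩ := (cl_mem_diam hO).mp hx
        rcases hp with h | h
        · rwa [h] at hpO
        · rw [mem_singleton_iff.mp h] at hpO
          exact absurd hpO ha
      · intro hx
        exact (cl_mem_diam hO).mpr ⟨x, Or.inl rfl, hx⟩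
    rw [this]
    exact hO

theorem ψ_continuous : Continuous ψ := by
  rw [continuous_generateFrom_iff]
  rintro _ ⟨O, hO, rfl⟩
  have : ψ ⁻¹' diam O = O := by
    ext x
    constructor
    · intro hx
      obtain ⟨p, hp, hpO⟩ := (cl_mem_diam hO).mp hx
      rwa [mem_singleton_iff.mp hp] at hpO
    · intro hx
      exact (cl_mem_diam hO).mpr ⟨x, rfl, hx⟩
  rw [this]
  exact hO

/-- test sets -/
def Y (n₀ M : ℕ) : Set Sp := {p | ∃ n m, p = y n m ∧ (n = n₀ → M ≤ m)}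

/-- test sets -/
def O₂ (n₀ M : ℕ) : Set Sp := {p | (∃ n m, p = y n m) ∨ ∃ f : ℕ → ℕ, p = z f ∧ f n₀ ≤ M}

theorem isOpen_Y (n₀ M : ℕ) : IsOpen (Y n₀ M) := by
  rw [isOpen_def]
  refine ⟨fun n m h m' hm => ?_, fun n m _ n' => ⟨M, n', M, rfl, fun _ => le_rfl⟩, fun f h => ?_, fun f h => ?_⟩
  · obtain ⟨n', m', h, h'⟩ := h
    cases h
    exact ⟨_, _, rfl, fun h => (h' h).trans hm⟩
  · obtain ⟨n', m', h, h'⟩ := h
    cases h
  · obtain ⟨n', m', h, h'⟩ := h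
    cases h

theorem not_coConsonant : ¬ CoConsonant (PH Sp) := by
  classical
  intro hcc
  have hopen₂ : IsOpen {p : Sp | p ≠ a} := by
    rw [isOpen_def]
    refine ⟨fun n m _ m' _ h => ?_, fun n m _ n' => ⟨0, fun h => ?_⟩, fun f _ n m h => ?_, fun f _ =>
      ⟨0, fun g _ h => ?_⟩⟩ <;> cases h
  let 𝒲₀ : Opens (PH Sp) := ⟨diam (Y 0 0) ∪ (diam {a} ∩ diam {p : Sp | p ≠ a}),
    (isOpen_diam (isOpen_Y 0 0)).union ((isOpen_diam isOpen_a).inter (isOpen_diam hopen₂))⟩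
  have hmem : 𝒲₀ ∈ {𝒲 : Opens (PH Sp) | ∃ f : ℕ → ℕ, φ (z f) ∈ 𝒲 ∧ ∀ n m, f n ≤ m → ψ (y n m) ∈ 𝒲} := by
    refine ⟨fun _ => 0, Or.inr ⟨(cl_mem_diam isOpen_a).mpr ⟨a, Or.inr rfl, rfl⟩,
      (cl_mem_diam hopen₂).mpr ⟨z fun _ => 0, Or.inl rfl, fun h => ?_⟩⟩, fun n m _ =>
      Or.inl ((cl_mem_diam (isOpen_Y 0 0)).mpr ⟨y n m, rfl, _, _, rfl, fun _ => Nat.zero_le _⟩)⟩
    cases h
  obtain ⟨𝒦, hfin, hsub, h𝒦⟩ := finite_of_coConsonant hcc (scottOpen_eval φ ψ φ_continuous ψ_continuous) hmem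
  -- the column
  obtain ⟨n₀, hn₀⟩ : ∃ n₀ : ℕ, ∀ C ∈ 𝒦, (∃ n m, y n m ∈ C.1) → ∃ n m, y n m ∈ C.1 ∧ n < n₀ := by
    have h1 : ∀ C : PH Sp, ∃ j : ℕ, (∃ n m, y n m ∈ C.1) → ∃ n m, y n m ∈ C.1 ∧ n < j := by
      intro C
      by_cases h : ∃ n m, y n m ∈ C.1
      · obtain ⟨n, m, hnm⟩ := h
        exact ⟨n + 1, fun _ => ⟨n, m, hnm, Nat.lt_succ_self n⟩⟩
      · exact ⟨0, fun h' => absurd h' h⟩
    choose j hj using h1
    refine ⟨hfin.toFinset.sup j, fun C hC h => ?_⟩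
    obtain ⟨n, m, hnm, hlt⟩ := hj C h
    exact ⟨n, m, hnm, lt_of_lt_of_le hlt (Finset.le_sup (hfin.mem_toFinset.mpr hC))⟩
  obtain ⟨M, hM⟩ : ∃ M : ℕ, ∀ C ∈ 𝒦, (∃ f, z f ∈ C.1) → ∃ f, z f ∈ C.1 ∧ f n₀ ≤ M := by
    have h1 : ∀ C : PH Sp, ∃ j : ℕ, (∃ f, z f ∈ C.1) → ∃ f, z f ∈ C.1 ∧ f n₀ ≤ j := by
      intro C
      by_cases h : ∃ f, z f ∈ C.1
      · obtain ⟨f, hf⟩ := h
        exact ⟨f n₀, fun _ => ⟨f, hf, le_rfl⟩⟩
      · exact ⟨0, fun h' => absurd h' h⟩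
    choose j hj using h1
    refine ⟨hfin.toFinset.sup j, fun C hC h => ?_⟩
    obtain ⟨f, hf, hlt⟩ := hj C h
    exact ⟨f, hf, hlt.trans (Finset.le_sup (hfin.mem_toFinset.mpr hC))⟩
  have hY : IsOpen (Y n₀ (M + 1)) := isOpen_Y n₀ (M + 1)
  have hO₂ : IsOpen (O₂ n₀ M) := isOpen_O2 n₀ M
  obtain ⟨f, hf1, hf2⟩ := h𝒦 ⟨diam (Y n₀ (M + 1)) ∪ (diam {a} ∩ diam (O₂ n₀ M)),
      (isOpen_diam hY).union ((isOpen_diam isOpen_a).inter (isOpen_diam hO₂))⟩ (by
    intro C hC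
    by_cases hy : ∃ n m, y n m ∈ C.1
    · obtain ⟨n, m, hnm, hlt⟩ := hn₀ C hC hy
      left
      exact ⟨y n m, hnm, n, m, rfl, fun h => by omega⟩
    · rcases hsub hC with h | ⟨h1, h2⟩
      · obtain ⟨p, hp, n, m, h', _⟩ := h
        rw [h'] at hp
        exact absurd ⟨n, m, hp⟩ hy
      · obtain ⟨p, hp, hpa⟩ := h2
        have hz : ∃ f, z f ∈ C.1 := by
          cases p with
          | a => exact absurd rfl hpa
          | y n m => exact absurd ⟨n, m, hp⟩ hy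
          | z f => exact ⟨f, hp⟩
        obtain ⟨f, hf, hfM⟩ := hM C hC hz
        exact Or.inr ⟨h1, z f, hf, Or.inr ⟨f, rfl, hfM⟩⟩)
  have h1 : f n₀ ≤ M := by
    rcases hf1 with h | ⟨_, h⟩
    · obtain ⟨p, hp, n, m, h', _⟩ := (cl_mem_diam hY).mp h
      rcases hp with hp | hp
      · rw [hp] at h'
        cases h'
      · rw [mem_singleton_iff.mp hp] at h'
        cases h'
    · obtain ⟨p, hp, h'⟩ := (cl_mem_diam hO₂).mp h
      rcases hp with hp | hp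
      · rw [hp] at h'
        rcases h' with ⟨_, _, h'⟩ | ⟨g, h', h''⟩
        · cases h'
        · cases h'
          exact h''
      · rw [mem_singleton_iff.mp hp] at h'
        rcases h' with ⟨_, _, h'⟩ | ⟨g, h', h''⟩ <;> cases h'
  rcases hf2 n₀ (f n₀) le_rfl with h | ⟨h, _⟩
  · obtain ⟨p, hp, n, m, h', h''⟩ := (cl_mem_diam hY).mp h
    rw [mem_singleton_iff.mp hp] at h'
    cases h'
    have := h'' rfl
    omega
  · obtain ⟨p, hp, h'⟩ := (cl_mem_diam isOpen_a).mp h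
    rw [mem_singleton_iff.mp hp] at h'
    cases (mem_singleton_iff.mp h')

theorem result : ∃ (X : Type) (_ : TopologicalSpace X), T0Space X ∧ CoConsonant X ∧ ¬ CoConsonant (PH X) :=
  ⟨Sp, inferInstance, inferInstance, coConsonant, not_coConsonant⟩

end Pool.Agent.Results.MP_a60c23_gt.LowerFails
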